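import Pool.Agent.R660.SC.Fin
import Pool.Agent.R660.SC.BALL
import Pool.Agent.R660.SC.CODE
import Pool.Agent.R660.SC.COMP
import Pool.Agent.R660.SC.COUNT
import Pool.Agent.R660.SC.DIMA
import Pool.Agent.R660.SC.DIML
import Pool.Agent.R660.SC.GENL
import Pool.Agent.R660.SC.GENU
import Pool.Agent.R660.SC.LEN
import Pool.Agent.R660.SC.MEAS
import Pool.Agent.R660.SC.NUMB
import Pool.Agent.R660.SC.SEPBAR
import Pool.Agent.R660.SC.SEPLG
import Pool.Agent.R660.SC.STEP
import Pool.Agent.R660.SC.STOP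
import Pool.Agent.R660.SC.TREE

open MeasureTheory Pool.Agent.R660.SC

/-- Every self-affine carpet of Lalley-Gatzouras or Baranski type supports a measure satisfying
`(U_s)` with `s = dim_A F` and a measure satisfying `(L_s)` with `s = dim_L F`. -/
theorem Pool.Agent.Results.MP_a82451_an.SharpCarpetMeasures.result (ι : Type) [Fintype ι]
    (hcard : 2 ≤ Fintype.card ι) (ρ τ : Fin 2 → ι → ℝ) (hT : IsLG ρ τ ∨ IsBar ρ τ)
    (F : Set E2) (hF : Attr ρ τ F) :
    (∃ μ : Measure E2, IsProbabilityMeasure μ ∧ Supp μ F ∧ UU μ F (dimA F)) ∧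
    (∃ μ : Measure E2, IsProbabilityMeasure μ ∧ Supp μ F ∧ LL μ F (dimL F)) :=
  Fin.main CODE.main LEN.main (COUNT.main LEN.main) (TREE.main (MEAS.main STEP.main) BALL.main)
    SEPLG.main SEPBAR.main (STOP.main LEN.main) (COMP.main LEN.main) NUMB.main
    (DIMA.main CODE.main LEN.main) (DIML.main CODE.main) GENU.main GENL.main hcard hT hF
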